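import Pool.Agent.Lib.H83B.Betti

/-!
# The number of Betti elements is strictly monotone under proper embeddings
-/

namespace Pool.Agent.Results.MP_baecf2_al.EmbeddingPairs

open Multiset Pool.Agent.Lib.H83B

section Aux

variable {G : Type*} [AddCommGroup G]

theorem pair_atom {g : G} (hg : g ≠ 0) : BlockAtom ({g, -g} : Multiset G) := by
  refine ⟨by simp, by simp, ?_⟩
  intro b c hb hc hbc
  have h1 : card b + card c = 2 := by
    have := congrArg card hbc
    simpa using this.symm
  have hno : ∀ x ∈ ({g, -g} : Multiset G), x ≠ 0 := by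
    intro x hx
    simp only [insert_eq_cons, mem_cons, mem_singleton] at hx
    rcases hx with h | h
    · rw [h]; exact hg
    · rw [h]; exact neg_ne_zero.2 hg
  have hb1 : card b ≠ 1 := by
    intro h
    obtain ⟨x, rfl⟩ := card_eq_one.1 h
    rw [sum_singleton] at hb
    exact hno x (by rw [hbc]; simp) hb
  rcases Nat.lt_or_ge (card b) 1 with h | h
  · left; exact card_eq_zero.1 (by omega)
  · right; exact card_eq_zero.1 (by omega)

theorem triple_atom {g h : G} (hg : g ≠ 0) (hh : h ≠ 0) (hg2 : g + g = 0) (hh2 : h + h = 0)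
    (hgh : g ≠ h) : BlockAtom ({g, h, g + h} : Multiset G) := by
  refine ⟨?_, by simp, ?_⟩
  · simp only [insert_eq_cons, sum_cons, sum_singleton]
    calc g + (h + (g + h)) = (g + g) + (h + h) := by abel
      _ = 0 := by rw [hg2, hh2, add_zero]
  intro b c hb hc hbc
  have h1 : card b + card c = 3 := by
    have := congrArg card hbc
    simpa using this.symm
  have hno : ∀ x ∈ ({g, h, g + h} : Multiset G), x ≠ 0 := by
    intro x hx
    simp only [insert_eq_cons, mem_cons, mem_singleton] at hx
    rcases hx with h | h | h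
    · rw [h]; exact hg
    · rw [h]; exact hh
    · rw [h]
      intro h0
      apply hgh
      have h3 : g = -g := eq_neg_of_add_eq_zero_left hg2
      rw [h3]
      exact (eq_neg_of_add_eq_zero_right h0).symm
  have hb1 : card b ≠ 1 := by
    intro h
    obtain ⟨x, rfl⟩ := card_eq_one.1 h
    rw [sum_singleton] at hb
    exact hno x (by rw [hbc]; simp) hb
  have hc1 : card c ≠ 1 := by
    intro h
    obtain ⟨x, rfl⟩ := card_eq_one.1 h
    rw [sum_singleton] at hc
    exact hno x (by rw [hbc]; simp) hc
  rcases Nat.lt_or_ge (card b) 1 with h | h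
  · left; exact card_eq_zero.1 (by omega)
  · right; exact card_eq_zero.1 (by omega)

theorem betti_power [Finite G] (g : G) (hg : 3 ≤ addOrderOf g) :
    IsBetti (replicate (addOrderOf g) g + replicate (addOrderOf g) (-g)) := by
  have hg0 : g ≠ 0 := by
    rintro rfl
    simp at hg
  have hneg : addOrderOf (-g) = addOrderOf g := addOrderOf_neg g
  have h1 := atom_replicate g (by omega)
  have h2 := atom_replicate (-g) (by omega)
  rw [hneg] at h2
  have hp := pair_atom hg0
  have hz : IsFactorization (replicate (addOrderOf g) g + replicate (addOrderOf g) (-g))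
      (replicate (addOrderOf g) ({g, -g} : Multiset G)) := by
    refine ⟨fun a ha => ?_, ?_⟩
    · rw [eq_of_mem_replicate ha]; exact hp
    · rw [sum_replicate]
      have : ({g, -g} : Multiset G) = {g} + {-g} := rfl
      rw [this, smul_add, nsmul_singleton, nsmul_singleton]
  refine isBetti_add h1 h2 hz ?_
  intro h
  have h3 : ({g, -g} : Multiset G) ∈ replicate (addOrderOf g) ({g, -g} : Multiset G) :=
    mem_replicate.2 ⟨by omega, rfl⟩
  rw [h] at h3
  simp only [insert_eq_cons, mem_cons, mem_singleton] at h3
  rcases h3 with h3 | h3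
  · have := congrArg card h3
    simp only [card_cons, card_singleton, card_replicate] at this
    omega
  · have := congrArg card h3
    simp only [card_cons, card_singleton, card_replicate] at this
    omega

theorem betti_triple {g h : G} (hg : g ≠ 0) (hh : h ≠ 0) (hg2 : g + g = 0) (hh2 : h + h = 0)
    (hgh : g ≠ h) : IsBetti (({g, h, g + h} : Multiset G) + {g, h, g + h}) := by
  have ha := triple_atom hg hh hg2 hh2 hgh
  have hgh0 : g + h ≠ 0 := by
    intro h0
    apply hgh
    have h3 : g = -g := eq_neg_of_add_eq_zero_left hg2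
    rw [h3]
    exact (eq_neg_of_add_eq_zero_right h0).symm
  have hsq : ∀ x : G, x ≠ 0 → x + x = 0 → BlockAtom ({x, x} : Multiset G) := by
    intro x hx hxx
    have h1 := pair_atom hx
    have h2 : -x = x := (eq_neg_of_add_eq_zero_left hxx).symm
    rw [h2] at h1
    exact h1
  have hghgh : (g + h) + (g + h) = 0 := by
    calc (g + h) + (g + h) = (g + g) + (h + h) := by abel
      _ = 0 := by rw [hg2, hh2, add_zero]
  have hz : IsFactorization (({g, h, g + h} : Multiset G) + {g, h, g + h})
      ({{g, g}, {h, h}, {g + h, g + h}} : Multiset (Multiset G)) := by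
    refine ⟨fun a ha => ?_, ?_⟩
    · simp only [insert_eq_cons, mem_cons, mem_singleton] at ha
      rcases ha with h | h | h
      · rw [h]; exact hsq g hg hg2
      · rw [h]; exact hsq _ hh hh2
      · rw [h]; exact hsq _ hgh0 hghgh
    · have e1 : ∀ x y : G, ({x, y} : Multiset G) = {x} + {y} := fun _ _ => rfl
      have e2 : ({g, h, g + h} : Multiset G) = {g} + ({h} + {g + h}) := rfl
      have e3 : ({{g, g}, {h, h}, {g + h, g + h}} : Multiset (Multiset G)).sum =
        {g, g} + ({h, h} + {g + h, g + h}) := by
        simp only [insert_eq_cons, sum_cons, sum_singleton]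
      rw [e3, e2, e1, e1, e1]
      abel
  refine isBetti_add ha ha hz ?_
  intro h0
  have := congrArg card h0
  simp only [insert_eq_cons, card_cons, card_singleton] at this
  omega

end Aux

/-- If `H` embeds properly into the finite abelian group `G` of order greater than `2`, then the
block monoid of `G` has strictly more Betti elements than that of `H`. -/
theorem result {G H : Type*} [AddCommGroup G] [AddCommGroup H] [Finite G] (φ : H →+ G)
    (hφ : Function.Injective φ) (hns : ¬ Function.Surjective φ) (hG : 2 < Nat.card G) :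
    betti H < betti G := by
  classical
  have hmap : Function.Injective (Multiset.map φ) := Multiset.map_injective hφ
  unfold betti
  rw [← Set.ncard_image_of_injective _ hmap]
  refine Set.ncard_lt_ncard ?_ finite_betti
  have hsub : (Multiset.map φ) '' {s : Multiset H | IsBetti s} ⊆ {s : Multiset G | IsBetti s} := by
    rintro _ ⟨s, hs, rfl⟩
    exact isBetti_map φ hφ hs
  refine (Set.ssubset_iff_of_subset hsub).2 ?_
  -- it is enough to find a Betti element containing an element outside the range
  suffices h : ∃ s : Multiset G, IsBetti s ∧ ∃ g ∈ s, g ∉ Set.range φ by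
    obtain ⟨s, hs, g, hgs, hg⟩ := h
    refine ⟨s, hs, ?_⟩
    rintro ⟨t, -, rfl⟩
    obtain ⟨y, -, rfl⟩ := mem_map.1 hgs
    exact hg ⟨y, rfl⟩
  by_cases hc : ∃ x : G, x ∉ Set.range φ ∧ 3 ≤ addOrderOf x
  · obtain ⟨x, hx, hx3⟩ := hc
    exact ⟨_, betti_power x hx3, x, by
      rw [mem_add]; left; exact mem_replicate.2 ⟨by omega, rfl⟩, hx⟩
  push Not at hc
  obtain ⟨g, hg⟩ : ∃ g, g ∉ Set.range φ := by
    by_contra hcon
    push Not at hcon
    exact hns fun y => hcon y
  have hord2 : ∀ x : G, x ∉ Set.range φ → x + x = 0 := by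
    intro x hx
    have h1 := hc x hx
    have h2 : 0 < addOrderOf x := addOrderOf_pos x
    have h3 : addOrderOf x = 1 ∨ addOrderOf x = 2 := by omega
    rcases h3 with h3 | h3
    · rw [AddMonoid.addOrderOf_eq_one_iff] at h3
      rw [h3, add_zero]
    · have := addOrderOf_nsmul_eq_zero x
      rw [h3, two_nsmul] at this
      exact this
  have hg0 : g ≠ 0 := by
    rintro rfl
    exact hg ⟨0, map_zero φ⟩
  have hall : ∀ x : G, x + x = 0 := by
    intro x
    by_cases hx : x ∈ Set.range φ
    · obtain ⟨y, rfl⟩ := hx
      have h1 : g + φ y ∉ Set.range φ := by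
        rintro ⟨z, hz⟩
        exact hg ⟨z - y, by rw [map_sub, hz]; abel⟩
      have h2 := hord2 _ h1
      have h3 := hord2 _ hg
      have h4 : (g + φ y) + (g + φ y) = (g + g) + (φ y + φ y) := by abel
      rw [h4, h3, zero_add] at h2
      exact h2
    · exact hord2 x hx
  obtain ⟨h, hh0, hhg⟩ : ∃ h : G, h ≠ 0 ∧ h ≠ g := by
    by_contra hcon
    push Not at hcon
    have := Fintype.ofFinite G
    have h1 : (Finset.univ : Finset G) ⊆ {0, g} := by
      intro x _
      by_cases hx : x = 0
      · simp [hx]
      · simp [hcon x hx]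
    have h2 := Finset.card_le_card h1
    rw [Finset.card_univ, ← Nat.card_eq_fintype_card] at h2
    have h3 : ({0, g} : Finset G).card ≤ 2 := Finset.card_le_two
    omega
  exact ⟨_, betti_triple hg0 hh0 (hall g) (hall h) (Ne.symm hhg), g, by simp, hg⟩

end Pool.Agent.Results.MP_baecf2_al.EmbeddingPairs
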