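import Pool.Agent.Lib.H83G.E9
import Pool.Agent.Lib.H74BB.Char
import Pool.Agent.Lib.H74BB.Pick
import Pool.Agent.Lib.H74BB.Surj

/-!
# Finite abelian groups of sufficiently different size have different numbers of Betti elements

The upper bound for the number of Betti elements of the block monoid of `H` is `2 ^ C H`, where
`C H` is the minimum of `273 √m log₂(m + 1)` and `6 e (log₂ (2 m))²` for `m = |H|` and `e` the
exponent of `H`.
-/

namespace Pool.Agent.Results.MP_baecf2_al.SeparationBySize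

open Multiset Pool.Agent.Lib.H83B Pool.Agent.Lib.H83G

universe u v

/-- The exponent in the upper bound for the number of Betti elements. -/
noncomputable def C (H : Type*) [AddCommGroup H] : ℝ :=
  min (273 * Real.sqrt (Nat.card H) * Real.logb 2 (Nat.card H + 1))
    (6 * AddMonoid.exponent H * Real.logb 2 (2 * Nat.card H) ^ 2)

section

variable (H : Type*) [AddCommGroup H] [Finite H]

private lemma exponent_pos' : 0 < AddMonoid.exponent H :=
  Nat.pos_of_ne_zero AddMonoid.exponent_ne_zero_of_finite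

private lemma one_le_card : 1 ≤ Nat.card H := Nat.card_pos

private lemma one_le_logb : 1 ≤ Real.logb 2 (2 * Nat.card H) := by
  have h1 : (1 : ℝ) ≤ Nat.card H := by exact_mod_cast one_le_card H
  rw [Real.le_logb_iff_rpow_le (by norm_num) (by linarith), Real.rpow_one]
  linarith

private lemma two_le_C : 2 ≤ C H := by
  refine le_min ?_ ?_
  · exact two_le_Lam (one_le_card H)
  · have h1 : (1 : ℝ) ≤ AddMonoid.exponent H := by exact_mod_cast exponent_pos' H
    have h2 := one_le_logb H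
    nlinarith [mul_self_nonneg (Real.logb 2 (2 * Nat.card H))]

private lemma support_le {F : Multiset H} [DecidableEq H] (hF : Zsf F) :
    F.toFinset.card ≤ AddMonoid.exponent H * (Nat.log 2 (Nat.card H) + 1) - 1 := by
  by_contra hcon
  push Not at hcon
  obtain ⟨T, hT, hne, h0⟩ := Pool.Agent.Lib.H74BB.exists_zero_sum_subset (exponent_pos' H)
    (fun g => AddMonoid.exponent_nsmul_eq_zero g) F.toFinset (by omega)
  have h2 : T.val ≤ F := by
    rw [Multiset.le_iff_subset T.nodup]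
    intro x hx
    exact mem_toFinset.1 (hT hx)
  have h4 : T.val.sum = ∑ t ∈ T, t := by
    rw [Finset.sum, Multiset.map_id']
  have h3 := hF T.val h2 (by rw [h4]; exact h0)
  exact hne.ne_empty (Finset.val_eq_zero.1 h3)

private lemma betti_le_mu :
    (betti H : ℝ) ≤ (2 : ℝ) ^ (6 * AddMonoid.exponent H * Real.logb 2 (2 * Nat.card H) ^ 2) := by
  classical
  set m := Nat.card H with hm
  set e := AddMonoid.exponent H with he
  set ℓ := Nat.log 2 m with hℓ
  have hm1 : 1 ≤ m := one_le_card H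
  have he0 : 0 < e := exponent_pos' H
  have h1 := betti_le_of_support (G := H) (e * (ℓ + 1) - 1) (fun F hF => support_le H hF)
  rw [← hm] at h1
  have h0 : 1 ≤ e * (ℓ + 1) := Nat.mul_pos he0 (by omega)
  have h2 : (m * (m + 2)) ^ (3 * (e * (ℓ + 1) - 1) + 2) ≤ (2 * m) ^ (6 * (e * (ℓ + 1))) := by
    calc (m * (m + 2)) ^ (3 * (e * (ℓ + 1) - 1) + 2)
        ≤ ((2 * m) ^ 2) ^ (3 * (e * (ℓ + 1) - 1) + 2) := by
          apply Nat.pow_le_pow_left
          nlinarith
      _ ≤ ((2 * m) ^ 2) ^ (3 * (e * (ℓ + 1))) := by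
          refine Nat.pow_le_pow_right (by positivity) (by omega)
      _ = (2 * m) ^ (6 * (e * (ℓ + 1))) := by
          rw [← pow_mul]; congr 1; ring
  have h3 : (betti H : ℝ) ≤ (2 * (m : ℝ)) ^ (6 * (e * (ℓ + 1))) := by
    exact_mod_cast h1.trans h2
  refine h3.trans ?_
  have hmr : (1 : ℝ) ≤ m := by exact_mod_cast hm1
  have h4 : (2 * (m : ℝ)) = (2 : ℝ) ^ Real.logb 2 (2 * m) :=
    (Real.rpow_logb (by norm_num) (by norm_num) (by linarith)).symm
  have h5 : ((ℓ : ℝ) + 1) ≤ Real.logb 2 (2 * m) := by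
    have h6 : 2 ^ (ℓ + 1) ≤ 2 * m := by
      rw [pow_succ]
      have := Nat.pow_log_le_self 2 (by omega : m ≠ 0)
      rw [← hℓ] at this
      omega
    rw [Real.le_logb_iff_rpow_le (by norm_num) (by linarith)]
    have h7 : ((2 : ℝ) ^ ((ℓ : ℝ) + 1)) = ((2 ^ (ℓ + 1) : ℕ) : ℝ) := by
      rw [show (ℓ : ℝ) + 1 = ((ℓ + 1 : ℕ) : ℝ) by push_cast; rfl, Real.rpow_natCast]
      push_cast
      rfl
    rw [h7]
    exact_mod_cast h6
  have h8 : (0 : ℝ) ≤ Real.logb 2 (2 * m) := by
    have := one_le_logb H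
    rw [← hm] at this
    linarith
  calc (2 * (m : ℝ)) ^ (6 * (e * (ℓ + 1)))
      = ((2 : ℝ) ^ Real.logb 2 (2 * m)) ^ (6 * (e * (ℓ + 1))) := by rw [← h4]
    _ = (2 : ℝ) ^ (Real.logb 2 (2 * m) * ((6 * (e * (ℓ + 1)) : ℕ) : ℝ)) := by
        rw [Real.rpow_mul (by norm_num), Real.rpow_natCast]
    _ ≤ (2 : ℝ) ^ (6 * (e : ℝ) * Real.logb 2 (2 * m) ^ 2) := by
        apply Real.rpow_le_rpow_of_exponent_le (by norm_num)
        push_cast
        have h9 : (0 : ℝ) ≤ 6 * (e : ℝ) * Real.logb 2 (2 * m) := by positivity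
        calc Real.logb 2 (2 * m) * (6 * ((e : ℝ) * ((ℓ : ℝ) + 1)))
            = 6 * (e : ℝ) * Real.logb 2 (2 * m) * ((ℓ : ℝ) + 1) := by ring
          _ ≤ 6 * (e : ℝ) * Real.logb 2 (2 * m) * Real.logb 2 (2 * m) :=
              mul_le_mul_of_nonneg_left h5 h9
          _ = 6 * (e : ℝ) * Real.logb 2 (2 * m) ^ 2 := by ring

private lemma betti_le_C : (betti H : ℝ) ≤ (2 : ℝ) ^ C H := by
  unfold C
  rcases min_choice (273 * Real.sqrt (Nat.card H) * Real.logb 2 (Nat.card H + 1))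
    (6 * AddMonoid.exponent H * Real.logb 2 (2 * Nat.card H) ^ 2) with h | h
  · rw [h]
    exact betti_le_Lam
  · rw [h]
    exact betti_le_mu H

end

private lemma lt_of_levels {H : Type u} {G : Type v} [AddCommGroup H] [Finite H] [AddCommGroup G]
    [Finite G] (c : ℝ) (hc : 2 ≤ c) (hH : (betti H : ℝ) ≤ (2 : ℝ) ^ c)
    (h3 : 3 * (c + 3) ≤ (AddMonoid.exponent G : ℝ)) (h6 : 6 * (c + 3) ^ 2 ≤ (Nat.card G : ℝ)) :
    betti H < betti G := by
  obtain ⟨f, hf⟩ := Pool.Agent.Lib.H74BB.exists_surj G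
  set q := ⌊c⌋₊ + 3 with hq
  have hf2 : c < ⌊c⌋₊ + 1 := Nat.lt_floor_add_one _
  have hf3 : (⌊c⌋₊ : ℝ) ≤ c := Nat.floor_le (by linarith)
  have hqr : (q : ℝ) ≤ c + 3 := by
    rw [hq]; push_cast; linarith
  have hq3 : 3 * q ≤ AddMonoid.exponent G := by
    have : (3 : ℝ) * q ≤ (AddMonoid.exponent G : ℝ) := by linarith
    exact_mod_cast this
  have hq6 : 6 * q ^ 2 ≤ Nat.card G := by
    have h0 : (0 : ℝ) ≤ q := by positivity
    have : (6 : ℝ) * (q : ℝ) ^ 2 ≤ (Nat.card G : ℝ) := by nlinarith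
    exact_mod_cast this
  have h := Pool.Agent.Lib.H74BB.betti_pick f hf (by omega : 1 ≤ q) hq3 hq6
  have e1 : q - 1 = ⌊c⌋₊ + 1 + 1 := by omega
  rw [e1, pow_succ] at h
  have h7 : 1 ≤ 2 ^ (⌊c⌋₊ + 1) := Nat.one_le_two_pow
  have h8 : 2 ^ (⌊c⌋₊ + 1) ≤ betti G := by omega
  have h9 : (betti H : ℝ) < betti G := by
    calc (betti H : ℝ) ≤ (2 : ℝ) ^ c := hH
      _ < (2 : ℝ) ^ ((⌊c⌋₊ + 1 : ℕ) : ℝ) := by
          apply Real.rpow_lt_rpow_of_exponent_lt (by norm_num)
          push_cast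
          exact hf2
      _ = ((2 ^ (⌊c⌋₊ + 1) : ℕ) : ℝ) := by
          rw [Real.rpow_natCast]
          push_cast
          rfl
      _ ≤ betti G := by exact_mod_cast h8
  exact_mod_cast h9

/-- The block monoid of a finite abelian group `G` has more Betti elements than the block monoid
of a finite abelian group `H` as soon as the exponent and the order of `G`, or one of them, are
large in terms of `C H`. -/
theorem result (H : Type u) (G : Type v) [AddCommGroup H] [Finite H] [AddCommGroup G] [Finite G]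
    (h : (C H + 3) ^ 2 ≤ 2 * (AddMonoid.exponent G : ℝ) ∨
      (3 * (C H + 3) ≤ (AddMonoid.exponent G : ℝ) ∧ 6 * (C H + 3) ^ 2 ≤ (Nat.card G : ℝ)) ∨
      (2 : ℝ) ^ (Real.sqrt (2 * C H) + 12) ≤ (Nat.card G : ℝ)) :
    betti H < betti G := by
  rcases h with h | ⟨h, h'⟩ | h
  · obtain ⟨g, hg⟩ := AddMonoid.exists_addOrderOf_eq_exponent
      (AddMonoid.ExponentExists.of_finite (G := G))
    exact lt_of_order (C H) (two_le_C H) (betti_le_C H) g (by rw [hg]; exact h)
  · exact lt_of_levels (C H) (two_le_C H) (betti_le_C H) h h'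
  · exact lt_of_card (C H) (two_le_C H) (betti_le_C H) h

end Pool.Agent.Results.MP_baecf2_al.SeparationBySize
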